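import Mathlib

/-!
Definitions: the group algebra of the symmetric group on `2n` points, Jucys-Murphy elements,
complete homogeneous symmetric functions of the odd ones, coset-types.
-/

namespace Pool.Agent.Q120.WG

open Equiv Finset

/-- the first point of the `i`-th pair (`2i-1` in one-indexed notation) -/
def pA {n : ℕ} (i : Fin n) : Fin (2 * n) := ⟨2 * i.val, by omega⟩

/-- the second point of the `i`-th pair (`2i` in one-indexed notation) -/
def pB {n : ℕ} (i : Fin n) : Fin (2 * n) := ⟨2 * i.val + 1, by omega⟩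

/-- the value of the involution `(1 2)(3 4)…(2n-1 2n)` -/
def invFun0 (n : ℕ) (x : Fin (2 * n)) : Fin (2 * n) :=
  ⟨if x.val % 2 = 0 then x.val + 1 else x.val - 1, by
    have := x.isLt
    split_ifs <;> omega⟩

lemma invFun0_invFun0 (n : ℕ) (x : Fin (2 * n)) : invFun0 n (invFun0 n x) = x := by
  apply Fin.ext
  simp only [invFun0]
  split_ifs <;> omega

/-- the involution `(1 2)(3 4)…(2n-1 2n)` -/
def inv0 (n : ℕ) : Perm (Fin (2 * n)) where
  toFun := invFun0 n
  invFun := invFun0 n
  left_inv := invFun0_invFun0 n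
  right_inv := invFun0_invFun0 n

/-- the hyperoctahedral group `H_n`, the centralizer of `(1 2)(3 4)…(2n-1 2n)` -/
def hyper (n : ℕ) : Finset (Perm (Fin (2 * n))) :=
  univ.filter (fun ζ => ζ * inv0 n = inv0 n * ζ)

/-- `P_n`, the sum of the elements of `H_n` in the group algebra -/
noncomputable def P (n : ℕ) : MonoidAlgebra ℂ (Perm (Fin (2 * n))) :=
  ∑ ζ ∈ hyper n, MonoidAlgebra.single ζ 1

/-- the Jucys-Murphy element `J_m = ∑_{i < m} (i m)` -/
noncomputable def J {n : ℕ} (m : Fin (2 * n)) : MonoidAlgebra ℂ (Perm (Fin (2 * n))) :=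
  ∑ i ∈ univ.filter (fun i => i < m), MonoidAlgebra.single (swap i m) 1

/-- `h_k(J_1, J_3, …, J_{2n-1})`: the sum of the products `J_{2i_1-1} ⋯ J_{2i_k-1}` over all weakly
decreasing sequences `i_1 ≥ … ≥ i_k` -/
noncomputable def h (n k : ℕ) : MonoidAlgebra ℂ (Perm (Fin (2 * n))) :=
  ∑ f ∈ univ.filter (fun f : Fin k → Fin n => Antitone f),
    (List.ofFn (fun j => J (pA (f j)))).prod

/-- the graph on the `2n` points with the edges `{2i-1, 2i}` and `{σ(2i-1), σ(2i)}` -/
def graph {n : ℕ} (σ : Perm (Fin (2 * n))) : SimpleGraph (Fin (2 * n)) :=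
  SimpleGraph.fromEdgeSet
    (Set.range (fun i : Fin n => s(pA i, pB i)) ∪ Set.range (fun i : Fin n => s(σ (pA i), σ (pB i))))

open scoped Classical in
/-- the coset-type: half the sizes of the connected components -/
noncomputable def cosetType {n : ℕ} (σ : Perm (Fin (2 * n))) : Multiset ℕ :=
  (univ.image (graph σ).connectedComponentMk).val.map (fun c => c.supp.ncard / 2)

/-- the reduced coset-type: subtract one from each part, remove the zeros -/
noncomputable def redType {n : ℕ} (σ : Perm (Fin (2 * n))) : Multiset ℕ :=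
  ((cosetType σ).map (fun r => r - 1)).filter (fun r => r ≠ 0)

open scoped Classical in
/-- `ψ_μ(n)`, the sum of all `σ` of reduced coset-type `μ` -/
noncomputable def ψ (n : ℕ) (μ : Multiset ℕ) : MonoidAlgebra ℂ (Perm (Fin (2 * n))) :=
  ∑ σ ∈ univ.filter (fun σ => redType σ = μ), MonoidAlgebra.single σ 1

/-! ### the truncated sums and the recursion -/

/-- weakly decreasing products with indices below `j` -/
noncomputable def hLoc (n k j : ℕ) : MonoidAlgebra ℂ (Perm (Fin (2 * n))) :=
  ∑ f ∈ univ.filter (fun f : Fin k → Fin n => Antitone f ∧ ∀ i, (f i).val < j),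
    (List.ofFn (fun i => J (pA (f i)))).prod

lemma h_eq_hLoc (n k : ℕ) : h n k = hLoc n k n := by
  unfold h hLoc
  congr 1
  ext f
  simp

lemma hLoc_zero (n j : ℕ) : hLoc n 0 j = 1 := by
  unfold hLoc
  rw [Finset.sum_eq_single (fun i => Fin.elim0 i)]
  · simp
  · intro f _ hf
    exact absurd (Subsingleton.elim _ _) hf
  · intro hf
    exfalso
    apply hf
    simp only [mem_filter, mem_univ, true_and]
    exact ⟨fun i => i.elim0, fun i => i.elim0⟩

lemma antitone_cons {n k : ℕ} (a : Fin n) (f : Fin k → Fin n) :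
    Antitone (Fin.cons a f : Fin (k + 1) → Fin n) ↔ Antitone f ∧ ∀ i, f i ≤ a := by
  constructor
  · intro hf
    refine ⟨?_, ?_⟩
    · intro i j hij
      have := hf (Fin.succ_le_succ_iff.2 hij)
      simpa using this
    · intro i
      have := hf (Fin.zero_le (Fin.succ i))
      simpa using this
  · rintro ⟨h1, h2⟩ i j hij
    induction i using Fin.cases with
    | zero =>
      induction j using Fin.cases with
      | zero => simp
      | succ j => simpa using h2 j
    | succ i =>
      induction j using Fin.cases with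
      | zero => exact absurd hij (by simp)
      | succ j => simpa using h1 (Fin.succ_le_succ_iff.1 hij)

lemma hLoc_succ (n k j : ℕ) :
    hLoc n (k + 1) j =
      ∑ a ∈ univ.filter (fun a : Fin n => a.val < j), J (pA a) * hLoc n k (a.val + 1) := by
  unfold hLoc
  rw [Finset.sum_filter, ← (Fin.consEquiv (fun _ : Fin (k + 1) => Fin n)).sum_comp,
    Fintype.sum_prod_type, Finset.sum_filter]
  apply Finset.sum_congr rfl
  intro a _
  rw [Finset.mul_sum, Finset.sum_filter]
  split_ifs with ha
  · apply Finset.sum_congr rfl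
    intro f _
    have hiff : (Antitone ((Fin.consEquiv (fun _ : Fin (k + 1) => Fin n)) (a, f)) ∧
        ∀ i, ((Fin.consEquiv (fun _ : Fin (k + 1) => Fin n)) (a, f) i).val < j) ↔
        (Antitone f ∧ ∀ i, (f i).val < a.val + 1) := by
      have h0 : ((Fin.consEquiv (fun _ : Fin (k + 1) => Fin n)) (a, f)) = Fin.cons a f := rfl
      rw [h0, antitone_cons]
      constructor
      · rintro ⟨⟨h1, h2⟩, -⟩
        exact ⟨h1, fun i => Nat.lt_succ_of_le (h2 i)⟩
      · rintro ⟨h1, h2⟩
        refine ⟨⟨h1, fun i => Nat.le_of_lt_succ (h2 i)⟩, ?_⟩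
        intro i
        induction i using Fin.cases with
        | zero => simpa using ha
        | succ i =>
          have := h2 i
          simp only [Fin.cons_succ]
          omega
    by_cases hc : (Antitone f ∧ ∀ i, (f i).val < a.val + 1)
    · rw [if_pos (hiff.2 hc), if_pos hc, List.ofFn_succ, List.prod_cons]
      rfl
    · rw [if_neg (fun hh => hc (hiff.1 hh)), if_neg hc]
  · apply Finset.sum_eq_zero
    intro f _
    rw [if_neg]
    rintro ⟨-, h2⟩
    exact ha (h2 0)

/-- the coefficient of `σ` in the truncated sum times `P_n` -/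
noncomputable def F (n k j : ℕ) (σ : Perm (Fin (2 * n))) : ℂ := (hLoc n k j * P n).coeff σ

lemma P_apply (n : ℕ) (σ : Perm (Fin (2 * n))) :
    (P n).coeff σ = if σ * inv0 n = inv0 n * σ then 1 else 0 := by
  unfold P
  rw [MonoidAlgebra.coeff_sum, Finsupp.finsetSum_apply]
  simp only [MonoidAlgebra.coeff_single, Finsupp.single_apply]
  rw [Finset.sum_ite_eq']
  simp [hyper]

lemma F_zero (n j : ℕ) (σ : Perm (Fin (2 * n))) :
    F n 0 j σ = if σ * inv0 n = inv0 n * σ then 1 else 0 := by
  unfold F
  rw [hLoc_zero, one_mul, P_apply]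

lemma J_mul_apply {n : ℕ} (m : Fin (2 * n)) (X : MonoidAlgebra ℂ (Perm (Fin (2 * n))))
    (σ : Perm (Fin (2 * n))) :
    (J m * X).coeff σ = ∑ s ∈ univ.filter (fun s => s < m), X.coeff (swap m s * σ) := by
  unfold J
  rw [Finset.sum_mul, MonoidAlgebra.coeff_sum, Finsupp.finsetSum_apply]
  apply Finset.sum_congr rfl
  intro s _
  rw [MonoidAlgebra.coeff_single_mul_apply, one_mul, swap_inv, swap_comm]

lemma F_succ (n k j : ℕ) (σ : Perm (Fin (2 * n))) :
    F n (k + 1) j σ = ∑ a ∈ univ.filter (fun a : Fin n => a.val < j),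
      ∑ s ∈ univ.filter (fun s => s < pA a), F n k (a.val + 1) (swap (pA a) s * σ) := by
  unfold F
  rw [hLoc_succ, Finset.sum_mul, MonoidAlgebra.coeff_sum, Finsupp.finsetSum_apply]
  apply Finset.sum_congr rfl
  intro a _
  rw [mul_assoc, J_mul_apply]

lemma F_succ_zero (n k : ℕ) (σ : Perm (Fin (2 * n))) : F n (k + 1) 0 σ = 0 := by
  rw [F_succ]
  simp

lemma F_succ_succ {n : ℕ} (k j : ℕ) (hj : j < n) (σ : Perm (Fin (2 * n))) :
    F n (k + 1) (j + 1) σ = F n (k + 1) j σ +
      ∑ s ∈ univ.filter (fun s : Fin (2 * n) => s.val < 2 * j),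
        F n k (j + 1) (swap (pA ⟨j, hj⟩) s * σ) := by
  rw [F_succ, F_succ]
  have hs : univ.filter (fun a : Fin n => a.val < j + 1) =
      insert (⟨j, hj⟩ : Fin n) (univ.filter (fun a : Fin n => a.val < j)) := by
    ext a
    simp only [mem_filter, mem_univ, true_and, mem_insert, Fin.ext_iff]
    omega
  rw [hs, Finset.sum_insert (by simp), add_comm]
  rfl

end Pool.Agent.Q120.WG
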