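import Mathlib

/-!
Components of the union of two perfect matchings, described by cyclic lists.

`e` and `p` are fixed-point-free involutions of a finite set.  A component of the graph with the
edges `{x, e x}` and `{x, p x}` is described by a pair `(a, l)`: if `a :: l` is `a_0, a_1, …, a_k`
then `p a_i = e a_(i+1)` (indices modulo `k+1`).
-/

set_option linter.unusedSimpArgs false

namespace Pool.Agent.Q120.WG

/-- consecutive elements of a component -/
def Rl {α : Type*} (e p : α → α) (a b : α) : Prop := p a = e b

/-- a segment of a component -/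
def Seg {α : Type*} (e p : α → α) (a : α) (l : List α) (b : α) : Prop :=
  List.IsChain (Rl e p) (a :: (l ++ [b]))

/-- the elements of a component -/
def cell {α : Type*} (e : α → α) (c : α × List α) : Multiset α :=
  {c.1} + {e c.1} + (c.2 : Multiset α) + ((c.2.map e : List α) : Multiset α)

/-- a full description of the components of `e ∪ p` on the set `S` -/
structure Conf {α : Type*} (e p : α → α) (S : Finset α) (L : Multiset (α × List α)) : Prop where
  cyc : ∀ c ∈ L, Seg e p c.1 c.2 c.1
  cov : (L.map (cell e)).sum = S.val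

variable {α : Type*} {e p : α → α}

lemma seg_nil {a b : α} : Seg e p a [] b ↔ p a = e b := by
  simp [Seg, Rl]

lemma seg_cons {a b x : α} {l : List α} :
    Seg e p a (x :: l) b ↔ p a = e x ∧ Seg e p x l b := by
  simp [Seg, Rl]

lemma seg_split {a b c : α} {l1 l2 : List α} :
    Seg e p a (l1 ++ c :: l2) b ↔ Seg e p a l1 c ∧ Seg e p c l2 b := by
  induction l1 generalizing a with
  | nil => rw [List.nil_append, seg_cons, seg_nil]
  | cons x l1 ih => rw [List.cons_append, seg_cons, seg_cons, ih, and_assoc]

lemma seg_flip (he : ∀ x, e (e x) = x) (hp : ∀ x, p (p x) = x) {a b : α} {l : List α}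
    (h : Seg e p a l b) : Seg e p (e b) (l.reverse.map e) (e a) := by
  induction l generalizing a with
  | nil =>
    rw [seg_nil] at h
    simp only [List.reverse_nil, List.map_nil, seg_nil]
    rw [← h, hp, he]
  | cons x l ih =>
    rw [seg_cons] at h
    have h2 := ih h.2
    simp only [List.reverse_cons, List.map_append, List.map_cons, List.map_nil]
    rw [seg_split]
    refine ⟨h2, ?_⟩
    rw [seg_nil, ← h.1, hp, he]

/-- conjugation of `p` by the involution `τ` -/
def tp (τ p : α → α) : α → α := fun x => τ (p (τ x))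

lemma seg_tau {τ : α → α} (he : ∀ x, e (e x) = x) (hτ : ∀ x, τ (τ x) = x) {a b : α} {l : List α}
    (hl : ∀ x ∈ l, τ x = x ∧ τ (e x) = e x) (h : Seg e p a l b) :
    Seg e (tp τ p) (τ a) l (e (τ (e b))) := by
  induction l generalizing a with
  | nil =>
    rw [seg_nil] at h ⊢
    simp only [tp, hτ, he, h]
  | cons x l ih =>
    rw [seg_cons] at h ⊢
    have hx := hl x (by simp)
    refine ⟨?_, ?_⟩
    · simp only [tp, hτ, h.1, hx.2]
    · have := ih (fun y hy => hl y (by simp [hy])) h.2
      rwa [hx.1] at this

lemma cell_flip (he : ∀ x, e (e x) = x) (a : α) (l : List α) :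
    cell e (e a, l.reverse.map e) = cell e (a, l) := by
  have h1 : (((l.reverse.map e : List α)) : Multiset α) = ((l.map e : List α) : Multiset α) := by
    rw [List.map_reverse, Multiset.coe_reverse]
  have h2 : ((((l.reverse.map e).map e : List α)) : Multiset α) = (l : Multiset α) := by
    rw [List.map_reverse, List.map_reverse, Multiset.coe_reverse, List.map_map]
    congr 1
    have : (e ∘ e) = id := by funext x; simp [he]
    rw [this, List.map_id]
  simp only [cell, h1, h2, he]
  abel

lemma coe_app (l1 l2 : List α) :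
    ((l1 ++ l2 : List α) : Multiset α) = (l1 : Multiset α) + (l2 : Multiset α) := rfl

lemma coe_cns (a : α) (l : List α) :
    ((a :: l : List α) : Multiset α) = {a} + (l : Multiset α) := rfl

lemma cell_rot (a b : α) (l1 l2 : List α) :
    cell e (b, l2 ++ a :: l1) = cell e (a, l1 ++ b :: l2) := by
  simp only [cell, List.map_append, List.map_cons, coe_app, coe_cns]
  abel

lemma cell_split (a b : α) (l1 l2 : List α) :
    cell e (a, l1 ++ b :: l2) = cell e (b, l1) + cell e (a, l2) := by
  simp only [cell, List.map_append, List.map_cons, coe_app, coe_cns]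
  abel

lemma exists_norm (he : ∀ x, e (e x) = x) (hp : ∀ x, p (p x) = x) (c : α × List α) (s : α)
    (hc : Seg e p c.1 c.2 c.1) (hs : s ∈ cell e c) :
    ∃ l : List α, Seg e p s l s ∧ cell e (s, l) = cell e c ∧ l.length = c.2.length := by
  obtain ⟨a, l0⟩ := c
  simp only at hc
  have hs' : s = a ∨ s = e a ∨ s ∈ l0 ∨ s ∈ l0.map e := by
    simp only [cell, Multiset.mem_add, Multiset.mem_singleton, Multiset.mem_coe] at hs
    tauto
  rcases hs' with h | h | h | h
  · subst h
    exact ⟨l0, hc, rfl, rfl⟩
  · subst h
    exact ⟨l0.reverse.map e, seg_flip he hp hc, cell_flip he a l0, by simp⟩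
  · obtain ⟨l1, l2, rfl⟩ := List.append_of_mem h
    rw [seg_split] at hc
    refine ⟨l2 ++ a :: l1, ?_, cell_rot a s l1 l2, by simp only [List.length_append, List.length_cons]; omega⟩
    rw [seg_split]
    exact ⟨hc.2, hc.1⟩
  · rw [List.mem_map] at h
    obtain ⟨x, hx, rfl⟩ := h
    obtain ⟨l1, l2, rfl⟩ := List.append_of_mem hx
    rw [seg_split] at hc
    refine ⟨(l2 ++ a :: l1).reverse.map e, ?_, ?_, by
      simp only [List.length_append, List.length_cons, List.length_map, List.length_reverse]; omega⟩
    · apply seg_flip he hp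
      rw [seg_split]
      exact ⟨hc.2, hc.1⟩
    · rw [cell_flip he, cell_rot]

/-- the lengths of the components -/
def lens (L : Multiset (α × List α)) : Multiset ℕ := L.map (fun c => c.2.length)

lemma conf_norm (he : ∀ x, e (e x) = x) (hp : ∀ x, p (p x) = x) {S : Finset α}
    {K L : Multiset (α × List α)} (h : Conf e p S (K + L)) (s : α)
    (hs : s ∈ (L.map (cell e)).sum) :
    ∃ (l : List α) (L' : Multiset (α × List α)), Conf e p S (K + (s, l) ::ₘ L') ∧
      lens L = l.length ::ₘ lens L' := by
  obtain ⟨c, hc, hsM⟩ := Multiset.mem_bind.1 (show s ∈ L.bind (cell e) from hs)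
  obtain ⟨L', rfl⟩ := Multiset.exists_cons_of_mem hc
  obtain ⟨l, hl, hcell, hlen⟩ := exists_norm he hp c s (h.cyc c (by simp)) hsM
  refine ⟨l, L', ⟨?_, ?_⟩, ?_⟩
  · intro c' hc'
    rw [Multiset.mem_add, Multiset.mem_cons] at hc'
    rcases hc' with h1 | h1 | h1
    · exact h.cyc c' (by simp [h1])
    · rw [h1]; exact hl
    · exact h.cyc c' (by simp [h1])
  · have := h.cov
    simp only [Multiset.map_add, Multiset.map_cons, Multiset.sum_add, Multiset.sum_cons] at this ⊢
    rw [hcell]; exact this
  · simp only [lens, Multiset.map_cons, hlen]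

lemma nd1 {S : Finset α} {c : α × List α} {L : Multiset (α × List α)}
    (h : Conf e p S (c ::ₘ L)) : (cell e c + (L.map (cell e)).sum).Nodup := by
  have := h.cov
  rw [Multiset.map_cons, Multiset.sum_cons] at this
  rw [this]
  exact S.nodup

lemma mem_sum_cell {L : Multiset (α × List α)} {c : α × List α} (hc : c ∈ L) {x : α}
    (hx : x ∈ cell e c) : x ∈ (L.map (cell e)).sum :=
  (Multiset.mem_bind.2 ⟨c, hc, hx⟩ : x ∈ L.bind (cell e))

section swaps

variable [DecidableEq α]

lemma seg_other {v s : α} (he : ∀ x, e (e x) = x) {c : α × List α}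
    (hc : Seg e p c.1 c.2 c.1) (hv : v ∉ cell e c) (hs : s ∉ cell e c) :
    Seg e (tp (Equiv.swap v s) p) c.1 c.2 c.1 := by
  have hfix : ∀ x ∈ cell e c, Equiv.swap v s x = x := by
    intro x hx
    apply Equiv.swap_apply_of_ne_of_ne
    · rintro rfl; exact hv hx
    · rintro rfl; exact hs hx
  have key := seg_tau (τ := Equiv.swap v s) he (fun x => Equiv.swap_apply_self v s x)
    (l := c.2) (a := c.1) (b := c.1) (p := p) ?_ hc
  · rw [hfix c.1 (by simp [cell]), hfix (e c.1) (by simp [cell]), he] at key
    exact key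
  · intro x hx
    refine ⟨hfix x (by simp [cell, hx]), hfix (e x) ?_⟩
    simp only [cell, Multiset.mem_add, Multiset.mem_singleton, Multiset.mem_coe, List.mem_map]
    exact Or.inr ⟨x, hx, rfl⟩

lemma rest_seg {v s : α} (he : ∀ x, e (e x) = x) {M : Multiset α} {L : Multiset (α × List α)}
    (hnd : (M + (L.map (cell e)).sum).Nodup) (hv : v ∈ M) (hs : s ∈ M)
    (hcyc : ∀ c ∈ L, Seg e p c.1 c.2 c.1) (c : α × List α) (hc : c ∈ L) :
    Seg e (tp (Equiv.swap v s) p) c.1 c.2 c.1 := by
  have hdis := (Multiset.nodup_add.1 hnd).2.2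
  rw [Multiset.disjoint_left] at hdis
  apply seg_other he (hcyc c hc)
  · intro h
    exact hdis hv (mem_sum_cell hc h)
  · intro h
    exact hdis hs (mem_sum_cell hc h)

lemma conf_split {v s : α} {l1 l2 : List α} {S : Finset α} {L : Multiset (α × List α)}
    (he : ∀ x, e (e x) = x)
    (h : Conf e p S ((v, l1 ++ s :: l2) ::ₘ L)) :
    Conf e (tp (Equiv.swap v s) p) S ((s, l1) ::ₘ (v, l2) ::ₘ L) := by
  have hnd := nd1 h
  have hnd0 := (Multiset.nodup_add.1 hnd).1
  have h0 := h.cyc _ (Multiset.mem_cons_self _ _)
  simp only at h0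
  rw [seg_split] at h0
  have hnd1 : ((v :: e v :: ((l1 ++ s :: l2) ++ (l1 ++ s :: l2).map e)) : List α).Nodup := by
    rw [← Multiset.coe_nodup]
    convert hnd0 using 1
    simp only [cell, coe_app, coe_cns, List.map_append, List.map_cons]
    abel
  have f1 : ∀ x ∈ l1, Equiv.swap v s x = x ∧ Equiv.swap v s (e x) = e x := by
    intro x hx
    simp only [List.nodup_cons, List.nodup_append, List.mem_append, List.mem_cons, List.mem_map,
      List.map_append, List.map_cons] at hnd1
    refine ⟨Equiv.swap_apply_of_ne_of_ne ?_ ?_, Equiv.swap_apply_of_ne_of_ne ?_ ?_⟩ <;> grind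
  have f2 : ∀ x ∈ l2, Equiv.swap v s x = x ∧ Equiv.swap v s (e x) = e x := by
    intro x hx
    simp only [List.nodup_cons, List.nodup_append, List.mem_append, List.mem_cons, List.mem_map,
      List.map_append, List.map_cons] at hnd1
    refine ⟨Equiv.swap_apply_of_ne_of_ne ?_ ?_, Equiv.swap_apply_of_ne_of_ne ?_ ?_⟩ <;> grind
  have f3 : Equiv.swap v s (e s) = e s := by
    simp only [List.nodup_cons, List.nodup_append, List.mem_append, List.mem_cons, List.mem_map,
      List.map_append, List.map_cons] at hnd1
    refine Equiv.swap_apply_of_ne_of_ne ?_ ?_ <;> grind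
  have f4 : Equiv.swap v s (e v) = e v := by
    simp only [List.nodup_cons, List.nodup_append, List.mem_append, List.mem_cons, List.mem_map,
      List.map_append, List.map_cons] at hnd1
    refine Equiv.swap_apply_of_ne_of_ne ?_ ?_ <;> grind
  have k1 := seg_tau (τ := Equiv.swap v s) he (fun x => Equiv.swap_apply_self v s x) f1 h0.1
  have k2 := seg_tau (τ := Equiv.swap v s) he (fun x => Equiv.swap_apply_self v s x) f2 h0.2
  rw [f3, he, Equiv.swap_apply_left] at k1
  rw [f4, he, Equiv.swap_apply_right] at k2
  refine ⟨?_, ?_⟩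
  · intro c hc
    rw [Multiset.mem_cons, Multiset.mem_cons] at hc
    rcases hc with rfl | rfl | hc
    · exact k1
    · exact k2
    · exact rest_seg he hnd (by simp [cell]) (by simp [cell])
        (fun c hc => h.cyc c (Multiset.mem_cons_of_mem hc)) c hc
  · have := h.cov
    simp only [Multiset.map_cons, Multiset.sum_cons] at this ⊢
    rw [← this, cell_split, add_assoc]

lemma conf_rev {v s : α} {l1 l2 : List α} {S : Finset α} {L : Multiset (α × List α)}
    (he : ∀ x, e (e x) = x) (hp : ∀ x, p (p x) = x)
    (h : Conf e p S ((v, l1 ++ e s :: l2) ::ₘ L)) :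
    Conf e (tp (Equiv.swap v s) p) S ((v, l1.reverse.map e ++ e s :: l2) ::ₘ L) := by
  have hnd := nd1 h
  have hnd0 := (Multiset.nodup_add.1 hnd).1
  have h0 := h.cyc _ (Multiset.mem_cons_self _ _)
  simp only at h0
  rw [seg_split] at h0
  have hnd1 : ((v :: e v :: ((l1 ++ e s :: l2) ++ (l1 ++ e s :: l2).map e)) : List α).Nodup := by
    rw [← Multiset.coe_nodup]
    convert hnd0 using 1
    simp only [cell, coe_app, coe_cns, List.map_append, List.map_cons]
    abel
  have hes := he s
  have f1 : ∀ x ∈ l1, Equiv.swap v s x = x ∧ Equiv.swap v s (e x) = e x := by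
    intro x hx
    simp only [List.nodup_cons, List.nodup_append, List.mem_append, List.mem_cons, List.mem_map,
      List.map_append, List.map_cons] at hnd1
    have hex := he x
    refine ⟨Equiv.swap_apply_of_ne_of_ne ?_ ?_, Equiv.swap_apply_of_ne_of_ne ?_ ?_⟩ <;> grind
  have f2 : ∀ x ∈ l2, Equiv.swap v s x = x ∧ Equiv.swap v s (e x) = e x := by
    intro x hx
    simp only [List.nodup_cons, List.nodup_append, List.mem_append, List.mem_cons, List.mem_map,
      List.map_append, List.map_cons] at hnd1
    have hex := he x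
    refine ⟨Equiv.swap_apply_of_ne_of_ne ?_ ?_, Equiv.swap_apply_of_ne_of_ne ?_ ?_⟩ <;> grind
  have f3 : Equiv.swap v s (e s) = e s := by
    simp only [List.nodup_cons, List.nodup_append, List.mem_append, List.mem_cons, List.mem_map,
      List.map_append, List.map_cons] at hnd1
    refine Equiv.swap_apply_of_ne_of_ne ?_ ?_ <;> grind
  have f4 : Equiv.swap v s (e v) = e v := by
    simp only [List.nodup_cons, List.nodup_append, List.mem_append, List.mem_cons, List.mem_map,
      List.map_append, List.map_cons] at hnd1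
    refine Equiv.swap_apply_of_ne_of_ne ?_ ?_ <;> grind
  have hτ : ∀ x, Equiv.swap v s (Equiv.swap v s x) = x := fun x => Equiv.swap_apply_self v s x
  have k1 := seg_tau (τ := Equiv.swap v s) he hτ f1 h0.1
  have k2 := seg_tau (τ := Equiv.swap v s) he hτ f2 h0.2
  rw [he, Equiv.swap_apply_right, Equiv.swap_apply_left] at k1
  rw [f4, he, f3] at k2
  have k3 := seg_flip he (p := tp (Equiv.swap v s) p) (fun x => by simp [tp, hp]) k1
  rw [he] at k3
  refine ⟨?_, ?_⟩
  · intro c hc
    rw [Multiset.mem_cons] at hc
    rcases hc with rfl | hc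
    · simp only
      rw [seg_split]
      exact ⟨k3, k2⟩
    · refine rest_seg he hnd (by simp [cell]) ?_
        (fun c hc => h.cyc c (Multiset.mem_cons_of_mem hc)) c hc
      simp [cell, he]
  · have := h.cov
    simp only [Multiset.map_cons, Multiset.sum_cons] at this ⊢
    rw [← this]
    congr 1
    have h1 : (((l1.reverse.map e : List α)) : Multiset α) = ((l1.map e : List α) : Multiset α) := by
      rw [List.map_reverse, Multiset.coe_reverse]
    have h2 : ((((l1.reverse.map e).map e : List α)) : Multiset α) = (l1 : Multiset α) := by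
      rw [List.map_reverse, List.map_reverse, Multiset.coe_reverse, List.map_map]
      congr 1
      have : (e ∘ e) = id := by funext x; simp [he]
      rw [this, List.map_id]
    simp only [cell, List.map_append, List.map_cons, coe_app, coe_cns, h1, h2]
    abel

lemma conf_opp {v : α} {l : List α} {S : Finset α} {L : Multiset (α × List α)}
    (he : ∀ x, e (e x) = x)
    (h : Conf e p S ((v, l) ::ₘ L)) :
    Conf e (tp (Equiv.swap v (e v)) p) S ((e v, l) ::ₘ L) := by
  have hnd := nd1 h
  have hnd0 := (Multiset.nodup_add.1 hnd).1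
  have h0 := h.cyc _ (Multiset.mem_cons_self _ _)
  simp only at h0
  have hnd1 : ((v :: e v :: (l ++ l.map e)) : List α).Nodup := by
    rw [← Multiset.coe_nodup]
    convert hnd0 using 1
    simp only [cell, coe_app, coe_cns, List.map_append, List.map_cons]
    abel
  have f1 : ∀ x ∈ l, Equiv.swap v (e v) x = x ∧ Equiv.swap v (e v) (e x) = e x := by
    intro x hx
    simp only [List.nodup_cons, List.nodup_append, List.mem_append, List.mem_cons, List.mem_map,
      List.map_append, List.map_cons] at hnd1
    refine ⟨Equiv.swap_apply_of_ne_of_ne ?_ ?_, Equiv.swap_apply_of_ne_of_ne ?_ ?_⟩ <;> grind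
  have hτ : ∀ x, Equiv.swap v (e v) (Equiv.swap v (e v) x) = x :=
    fun x => Equiv.swap_apply_self v (e v) x
  have k1 := seg_tau (τ := Equiv.swap v (e v)) he hτ f1 h0
  rw [Equiv.swap_apply_left, Equiv.swap_apply_right] at k1
  refine ⟨?_, ?_⟩
  · intro c hc
    rw [Multiset.mem_cons] at hc
    rcases hc with rfl | hc
    · exact k1
    · exact rest_seg he hnd (by simp [cell]) (by simp [cell])
        (fun c hc => h.cyc c (Multiset.mem_cons_of_mem hc)) c hc
  · have := h.cov
    simp only [Multiset.map_cons, Multiset.sum_cons] at this ⊢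
    rw [← this]
    congr 1
    simp only [cell, he]
    abel

lemma conf_merge {v s : α} {l l' : List α} {S : Finset α} {L : Multiset (α × List α)}
    (he : ∀ x, e (e x) = x)
    (h : Conf e p S ((v, l) ::ₘ (s, l') ::ₘ L)) :
    Conf e (tp (Equiv.swap v s) p) S ((v, l' ++ s :: l) ::ₘ L) := by
  have hcov := h.cov
  simp only [Multiset.map_cons, Multiset.sum_cons] at hcov
  have hnd : ((cell e (v, l) + cell e (s, l')) + (L.map (cell e)).sum).Nodup := by
    rw [add_assoc, hcov]; exact S.nodup
  have hnd0 := (Multiset.nodup_add.1 hnd).1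
  have h0 := h.cyc _ (Multiset.mem_cons_self _ _)
  have h0' := h.cyc (s, l') (by simp)
  simp only at h0 h0'
  have hnd1 : ((v :: e v :: (l ++ l.map e)) ++ (s :: e s :: (l' ++ l'.map e)) : List α).Nodup := by
    rw [← Multiset.coe_nodup]
    convert hnd0 using 1
    simp only [cell, coe_app, coe_cns, List.map_append, List.map_cons]
    abel
  have f1 : ∀ x ∈ l, Equiv.swap v s x = x ∧ Equiv.swap v s (e x) = e x := by
    intro x hx
    simp only [List.nodup_cons, List.nodup_append, List.mem_append, List.mem_cons, List.mem_map,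
      List.map_append, List.map_cons] at hnd1
    refine ⟨Equiv.swap_apply_of_ne_of_ne ?_ ?_, Equiv.swap_apply_of_ne_of_ne ?_ ?_⟩ <;> grind
  have f2 : ∀ x ∈ l', Equiv.swap v s x = x ∧ Equiv.swap v s (e x) = e x := by
    intro x hx
    simp only [List.nodup_cons, List.nodup_append, List.mem_append, List.mem_cons, List.mem_map,
      List.map_append, List.map_cons] at hnd1
    refine ⟨Equiv.swap_apply_of_ne_of_ne ?_ ?_, Equiv.swap_apply_of_ne_of_ne ?_ ?_⟩ <;> grind
  have f3 : Equiv.swap v s (e s) = e s := by
    simp only [List.nodup_cons, List.nodup_append, List.mem_append, List.mem_cons, List.mem_map,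
      List.map_append, List.map_cons] at hnd1
    refine Equiv.swap_apply_of_ne_of_ne ?_ ?_ <;> grind
  have f4 : Equiv.swap v s (e v) = e v := by
    simp only [List.nodup_cons, List.nodup_append, List.mem_append, List.mem_cons, List.mem_map,
      List.map_append, List.map_cons] at hnd1
    refine Equiv.swap_apply_of_ne_of_ne ?_ ?_ <;> grind
  have hτ : ∀ x, Equiv.swap v s (Equiv.swap v s x) = x := fun x => Equiv.swap_apply_self v s x
  have k1 := seg_tau (τ := Equiv.swap v s) he hτ f1 h0
  have k2 := seg_tau (τ := Equiv.swap v s) he hτ f2 h0'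
  rw [f4, he, Equiv.swap_apply_left] at k1
  rw [f3, he, Equiv.swap_apply_right] at k2
  refine ⟨?_, ?_⟩
  · intro c hc
    rw [Multiset.mem_cons] at hc
    rcases hc with rfl | hc
    · simp only
      rw [seg_split]
      exact ⟨k2, k1⟩
    · exact rest_seg he hnd (by simp [cell]) (by simp [cell])
        (fun c hc => h.cyc c (by simp [hc])) c hc
  · simp only [Multiset.map_cons, Multiset.sum_cons]
    rw [← hcov, cell_split, ← add_assoc]
    congr 1
    abel

end swaps

end Pool.Agent.Q120.WG
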