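import Pool.Agent.Q120.WG.Main

/-!
Every permutation has a description of its components, and this description gives the coset-type.
-/

namespace Pool.Agent.Q120.WG

open Equiv Finset

lemma exists_pair {n : ℕ} (x : Fin (2 * n)) : ∃ i : Fin n, x = pA i ∨ x = pB i := by
  refine ⟨⟨x.val / 2, by omega⟩, ?_⟩
  rcases Nat.mod_two_eq_zero_or_one x.val with h | h
  · left; apply Fin.ext; simp only [pA]; omega
  · right; apply Fin.ext; simp only [pB]; omega

lemma inv0_ne {n : ℕ} (x : Fin (2 * n)) : inv0 n x ≠ x := by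
  intro h
  have h1 := congrArg Fin.val h
  have h2 : (inv0 n x).val = if x.val % 2 = 0 then x.val + 1 else x.val - 1 := rfl
  rw [h2] at h1
  split_ifs at h1 <;> omega

lemma pp_apply {n : ℕ} (σ : Perm (Fin (2 * n))) (x : Fin (2 * n)) :
    pp σ (σ x) = σ (inv0 n x) := by simp [pp]

lemma adj_imp {n : ℕ} {σ : Perm (Fin (2 * n))} {x y : Fin (2 * n)} (h : (graph σ).Adj x y) :
    y = inv0 n x ∨ y = pp σ x := by
  unfold graph at h
  rw [SimpleGraph.fromEdgeSet_adj] at h
  obtain ⟨h1, -⟩ := h
  rcases h1 with ⟨i, hi⟩ | ⟨i, hi⟩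
  · left
    simp only [Sym2.eq_iff] at hi
    rcases hi with ⟨rfl, rfl⟩ | ⟨rfl, rfl⟩
    · rw [inv0_pA]
    · rw [inv0_pB]
  · right
    simp only [Sym2.eq_iff] at hi
    rcases hi with ⟨rfl, rfl⟩ | ⟨rfl, rfl⟩
    · rw [pp_apply, inv0_pA]
    · rw [pp_apply, inv0_pB]

lemma adj_inv0 {n : ℕ} (σ : Perm (Fin (2 * n))) (x : Fin (2 * n)) :
    (graph σ).Adj x (inv0 n x) := by
  unfold graph
  rw [SimpleGraph.fromEdgeSet_adj]
  refine ⟨Or.inl ?_, (inv0_ne x).symm⟩
  obtain ⟨i, rfl | rfl⟩ := exists_pair x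
  · exact ⟨i, by rw [inv0_pA]⟩
  · exact ⟨i, by rw [inv0_pB]; exact Sym2.eq_swap⟩

lemma adj_pp {n : ℕ} (σ : Perm (Fin (2 * n))) (x : Fin (2 * n)) :
    (graph σ).Adj x (pp σ x) := by
  obtain ⟨y, rfl⟩ := σ.surjective x
  unfold graph
  rw [SimpleGraph.fromEdgeSet_adj, pp_apply]
  refine ⟨Or.inr ?_, fun h => inv0_ne y (σ.injective h).symm⟩
  obtain ⟨i, rfl | rfl⟩ := exists_pair y
  · exact ⟨i, by rw [inv0_pA]⟩
  · exact ⟨i, by rw [inv0_pB]; exact Sym2.eq_swap⟩

lemma seg_reach {n : ℕ} {σ : Perm (Fin (2 * n))} {a b : Fin (2 * n)} {l : List (Fin (2 * n))}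
    (h : Seg (inv0 n) (pp σ) a l b) : ∀ x ∈ l, (graph σ).Reachable a x := by
  induction l generalizing a with
  | nil => intro x hx; simp at hx
  | cons y l ih =>
    rw [seg_cons] at h
    have h1 : (graph σ).Reachable a y := by
      have h2 := (adj_pp σ a).reachable
      have h3 := (adj_inv0 σ (pp σ a)).reachable
      rw [h.1, inv0_inv0] at h3
      rw [h.1] at h2
      exact h2.trans h3
    intro x hx
    rw [List.mem_cons] at hx
    rcases hx with rfl | hx
    · exact h1
    · exact h1.trans (ih h.2 x hx)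

lemma seg_next {α : Type*} {e p : α → α} {a b : α} {l : List α} (h : Seg e p a l b) :
    ∀ x, x = a ∨ x ∈ l → ∃ y, (y = b ∨ y ∈ l) ∧ p x = e y := by
  induction l generalizing a with
  | nil =>
    intro x hx
    rcases hx with rfl | hx
    · exact ⟨b, Or.inl rfl, seg_nil.1 h⟩
    · simp at hx
  | cons z l ih =>
    rw [seg_cons] at h
    intro x hx
    rcases hx with rfl | hx
    · exact ⟨z, Or.inr (by simp), h.1⟩
    · obtain ⟨y, hy, hxy⟩ := ih h.2 x (by rw [List.mem_cons] at hx; exact hx)
      refine ⟨y, ?_, hxy⟩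
      rcases hy with rfl | hy
      · exact Or.inl rfl
      · exact Or.inr (by simp [hy])

lemma mem_cell {α : Type*} {e : α → α} {c : α × List α} {x : α} :
    x ∈ cell e c ↔ (x = c.1 ∨ x ∈ c.2) ∨ (∃ y, (y = c.1 ∨ y ∈ c.2) ∧ e y = x) := by
  simp only [cell, Multiset.mem_add, Multiset.mem_singleton, Multiset.mem_coe, List.mem_map]
  constructor
  · rintro (((rfl | rfl) | h) | ⟨y, hy, rfl⟩)
    · exact Or.inl (Or.inl rfl)
    · exact Or.inr ⟨c.1, Or.inl rfl, rfl⟩
    · exact Or.inl (Or.inr h)
    · exact Or.inr ⟨y, Or.inr hy, rfl⟩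
  · rintro ((rfl | h) | ⟨y, (rfl | hy), rfl⟩)
    · exact Or.inl (Or.inl (Or.inl rfl))
    · exact Or.inl (Or.inr h)
    · exact Or.inl (Or.inl (Or.inr rfl))
    · exact Or.inr ⟨y, hy, rfl⟩

lemma cell_e {α : Type*} {e : α → α} (he : ∀ x, e (e x) = x) {c : α × List α} {x : α}
    (hx : x ∈ cell e c) : e x ∈ cell e c := by
  rw [mem_cell] at hx ⊢
  rcases hx with h | ⟨y, hy, rfl⟩
  · exact Or.inr ⟨x, h, rfl⟩
  · rw [he]; exact Or.inl hy

lemma cell_p {α : Type*} {e p : α → α} (he : ∀ x, e (e x) = x) (hp : ∀ x, p (p x) = x)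
    {c : α × List α} (hc : Seg e p c.1 c.2 c.1) {x : α} (hx : x ∈ cell e c) :
    p x ∈ cell e c := by
  rw [mem_cell] at hx
  rcases hx with h | ⟨y, hy, rfl⟩
  · obtain ⟨y, hy, hxy⟩ := seg_next hc x h
    rw [hxy, mem_cell]
    exact Or.inr ⟨y, hy, rfl⟩
  · have h2 := seg_flip he hp hc
    obtain ⟨z, hz, hxz⟩ := seg_next h2 (e y) (by
      rcases hy with rfl | hy
      · exact Or.inl rfl
      · right; rw [List.mem_map]; exact ⟨y, by simpa using hy, rfl⟩)
    rw [hxz, mem_cell]
    left
    rcases hz with rfl | hz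
    · left; rw [he]
    · right
      rw [List.mem_map] at hz
      obtain ⟨w, hw, rfl⟩ := hz
      rw [he]; simpa using hw

lemma supp_eq {n : ℕ} {σ : Perm (Fin (2 * n))} {c : Fin (2 * n) × List (Fin (2 * n))}
    (hc : Seg (inv0 n) (pp σ) c.1 c.2 c.1) :
    ((graph σ).connectedComponentMk c.1).supp = {x | x ∈ cell (inv0 n) c} := by
  ext x
  rw [SimpleGraph.ConnectedComponent.mem_supp_iff, SimpleGraph.ConnectedComponent.eq,
    Set.mem_ofPred_eq]
  constructor
  · intro h
    have h' := h.symm
    rw [SimpleGraph.reachable_iff_reflTransGen] at h'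
    induction h' with
    | refl => rw [mem_cell]; exact Or.inl (Or.inl rfl)
    | tail hab hbc ih =>
      rename_i y z
      have hy : y ∈ cell (inv0 n) c := by
        apply ih
        exact ((SimpleGraph.reachable_iff_reflTransGen _ _).2 hab).symm
      rcases adj_imp hbc with rfl | rfl
      · exact cell_e inv0_inv0 hy
      · exact cell_p inv0_inv0 (pp_pp σ) hc hy
  · intro h
    rw [mem_cell] at h
    have h0 : ∀ y, (y = c.1 ∨ y ∈ c.2) → (graph σ).Reachable c.1 y := by
      rintro y (rfl | hy)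
      · exact SimpleGraph.Reachable.refl _
      · exact seg_reach hc y hy
    rcases h with h | ⟨y, hy, rfl⟩
    · exact (h0 x h).symm
    · exact ((h0 y hy).trans (adj_inv0 σ y).reachable).symm

lemma cell_card {α : Type*} {e : α → α} (c : α × List α) :
    (cell e c).card = 2 * (c.2.length + 1) := by
  simp only [cell, Multiset.card_add, Multiset.card_singleton, Multiset.coe_card, List.length_map]
  omega

lemma supp_card {n : ℕ} {σ : Perm (Fin (2 * n))} {c : Fin (2 * n) × List (Fin (2 * n))}
    (hc : Seg (inv0 n) (pp σ) c.1 c.2 c.1) (hnd : (cell (inv0 n) c).Nodup) :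
    ((graph σ).connectedComponentMk c.1).supp.ncard / 2 = c.2.length + 1 := by
  rw [supp_eq hc]
  have h1 : {x | x ∈ cell (inv0 n) c} = ((cell (inv0 n) c).toFinset : Set (Fin (2 * n))) := by
    ext x; simp
  rw [h1, Set.ncard_coe_finset, Multiset.toFinset_card_of_nodup hnd, cell_card]
  omega

lemma S_full {n : ℕ} : S n n = univ := by
  ext x
  simp only [mem_S, mem_univ, iff_true]
  exact x.isLt

theorem cosetType_eq {n : ℕ} {σ : Perm (Fin (2 * n))}
    {L : Multiset (Fin (2 * n) × List (Fin (2 * n)))}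
    (hL : Conf (inv0 n) (pp σ) (S n n) L) :
    cosetType σ = (lens L).map (fun k => k + 1) := by
  classical
  have hnd : ∀ c ∈ L, (cell (inv0 n) c).Nodup := by
    intro c hc
    obtain ⟨L', rfl⟩ := Multiset.exists_cons_of_mem hc
    exact (Multiset.nodup_add.1 (nd1 hL)).1
  have key : (univ.image (graph σ).connectedComponentMk).val =
      L.map (fun c => (graph σ).connectedComponentMk c.1) := by
    rw [Multiset.Nodup.ext (Finset.nodup _)]
    · intro C
      constructor
      · intro hC
        have hC' : C ∈ univ.image (graph σ).connectedComponentMk := hC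
        rw [mem_image] at hC'
        obtain ⟨x, -, rfl⟩ := hC'
        have hx : x ∈ (L.map (cell (inv0 n))).sum := by
          rw [hL.cov, S_full]; exact mem_univ x
        obtain ⟨c, hc, hxc⟩ := Multiset.mem_bind.1 (show x ∈ L.bind (cell (inv0 n)) from hx)
        rw [Multiset.mem_map]
        refine ⟨c, hc, ?_⟩
        have h1 : x ∈ ((graph σ).connectedComponentMk c.1).supp := by
          rw [supp_eq (hL.cyc c hc)]; exact hxc
        rw [SimpleGraph.ConnectedComponent.mem_supp_iff] at h1
        exact h1.symm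
      · intro hC
        obtain ⟨c, -, rfl⟩ := Multiset.mem_map.1 hC
        show (graph σ).connectedComponentMk c.1 ∈ univ.image (graph σ).connectedComponentMk
        exact Finset.mem_image.2 ⟨c.1, Finset.mem_univ _, rfl⟩
    · apply Multiset.Nodup.map_on
      · intro c hc c' hc' heq
        by_contra hne
        obtain ⟨L', rfl⟩ := Multiset.exists_cons_of_mem hc
        rw [Multiset.mem_cons] at hc'
        rcases hc' with h | hc'
        · exact hne h.symm
        · have hdis := (Multiset.nodup_add.1 (nd1 hL)).2.2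
          rw [Multiset.disjoint_left] at hdis
          have h1 : c'.1 ∈ ((graph σ).connectedComponentMk c.1).supp := by
            rw [SimpleGraph.ConnectedComponent.mem_supp_iff]; exact heq.symm
          rw [supp_eq (hL.cyc c hc)] at h1
          exact hdis h1 (mem_sum_cell hc' (by simp [cell]))
      · rw [Multiset.nodup_iff_ne_cons_cons]
        intro c L' hLL
        subst hLL
        have hdis := (Multiset.nodup_add.1 (nd1 hL)).2.2
        rw [Multiset.disjoint_left] at hdis
        exact hdis (show c.1 ∈ cell (inv0 n) c by simp [cell])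
          (mem_sum_cell (Multiset.mem_cons_self c L') (by simp [cell]))
  have h2 : cosetType σ =
      (univ.image (graph σ).connectedComponentMk).val.map (fun c => c.supp.ncard / 2) := by
    unfold cosetType
    congr
  rw [h2, key, Multiset.map_map, lens, Multiset.map_map]
  apply Multiset.map_congr rfl
  intro c hc
  exact supp_card (hL.cyc c hc) (hnd c hc)

theorem redType_eq {n : ℕ} {σ : Perm (Fin (2 * n))}
    {L : Multiset (Fin (2 * n) × List (Fin (2 * n)))}
    (hL : Conf (inv0 n) (pp σ) (S n n) L) :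
    redType σ = (lens L).filter (fun k => k ≠ 0) := by
  rw [redType, cosetType_eq hL, Multiset.map_map]
  simp

lemma sum_filter_ne (M : Multiset ℕ) : (M.filter (fun k => k ≠ 0)).sum = M.sum := by
  induction M using Multiset.induction with
  | empty => simp
  | cons a M ih =>
    by_cases h : a = 0
    · subst h
      rw [Multiset.filter_cons_of_neg (p := fun k => k ≠ 0) _ (by simp), ih]; simp
    · rw [Multiset.filter_cons_of_pos (p := fun k => k ≠ 0) _ h, Multiset.sum_cons, Multiset.sum_cons, ih]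

lemma W_filter_ne (M : Multiset ℕ) : W (M.filter (fun k => k ≠ 0)) = W M := by
  induction M using Multiset.induction with
  | empty => simp
  | cons a M ih =>
    by_cases h : a = 0
    · subst h
      rw [Multiset.filter_cons_of_neg (p := fun k => k ≠ 0) _ (by simp), ih, W_cons, T_zero, one_mul]
    · rw [Multiset.filter_cons_of_pos (p := fun k => k ≠ 0) _ h, W_cons, W_cons, ih]

lemma exists_conf_one (n : ℕ) : ∀ j, j ≤ n → ∃ L, Conf (inv0 n) (pp 1) (S n j) L ∧
    lens L = Multiset.replicate j 0 := by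
  intro j
  induction j with
  | zero =>
    intro _
    refine ⟨0, ⟨fun c hc => by simp at hc, ?_⟩, by simp [lens]⟩
    have : S n 0 = ∅ := by ext x; simp [mem_S]
    rw [this]; simp
  | succ j ih =>
    intro hj
    obtain ⟨L, hL, hl⟩ := ih (by omega)
    refine ⟨(pA ⟨j, by omega⟩, []) ::ₘ L, ⟨?_, ?_⟩, ?_⟩
    · intro c hc
      rw [Multiset.mem_cons] at hc
      rcases hc with rfl | hc
      · simp only
        rw [seg_nil]
        simp [pp]
      · exact hL.cyc c hc
    · rw [Multiset.map_cons, Multiset.sum_cons, hL.cov, S_succ (by omega)]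
      simp [cell]
    · simp only [lens, Multiset.map_cons, List.length_nil, Multiset.replicate_succ]
      rw [← hl]
      rfl

theorem exists_conf {n : ℕ} (σ : Perm (Fin (2 * n))) :
    ∃ L, Conf (inv0 n) (pp σ) (S n n) L := by
  induction σ using Equiv.Perm.swap_induction_on with
  | one =>
    obtain ⟨L, hL, -⟩ := exists_conf_one n n le_rfl
    exact ⟨L, hL⟩
  | swap_mul f x y hxy ih =>
    obtain ⟨L, hL⟩ := ih
    have hx : x ∈ (L.map (cell (inv0 n))).sum := by rw [hL.cov, S_full]; exact mem_univ x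
    obtain ⟨l, L', hL', -⟩ := conf_norm (K := 0) inv0_inv0 (pp_pp f) (by rwa [zero_add]) x hx
    rw [zero_add] at hL'
    have hy : y ∈ cell (inv0 n) (x, l) + (L'.map (cell (inv0 n))).sum := by
      have := hL'.cov
      rw [Multiset.map_cons, Multiset.sum_cons] at this
      rw [this, S_full]; exact mem_univ y
    rw [pp_swap]
    rw [Multiset.mem_add, mem_cell] at hy
    rcases hy with ((rfl | hy) | ⟨z, (rfl | hz), rfl⟩) | hy
    · exact absurd rfl hxy
    · simp only at hy
      obtain ⟨l1, l2, rfl⟩ := List.append_of_mem hy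
      exact ⟨_, conf_split inv0_inv0 hL'⟩
    · exact ⟨_, conf_opp inv0_inv0 hL'⟩
    · simp only at hz
      obtain ⟨l1, l2, rfl⟩ := List.append_of_mem hz
      have h1 : Conf (inv0 n) (pp f) (S n n)
          ((x, l1 ++ inv0 n (inv0 n z) :: l2) ::ₘ L') := by rw [inv0_inv0]; exact hL'
      exact ⟨_, conf_rev inv0_inv0 (pp_pp f) h1⟩
    · have hL2 : Conf (inv0 n) (pp f) (S n n) ({(x, l)} + L') := by
        rw [Multiset.singleton_add]; exact hL'
      obtain ⟨l'', L'', hc, -⟩ := conf_norm inv0_inv0 (pp_pp f) hL2 y hy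
      rw [Multiset.singleton_add] at hc
      exact ⟨_, conf_merge inv0_inv0 hc⟩

theorem exists_row (n : ℕ) : ∀ k, k < n → ∃ (σ : Perm (Fin (2 * n)))
    (L : Multiset (Fin (2 * n) × List (Fin (2 * n)))), Conf (inv0 n) (pp σ) (S n n) L ∧
    lens L = k ::ₘ Multiset.replicate (n - 1 - k) 0 := by
  intro k
  induction k with
  | zero =>
    intro hn
    obtain ⟨L, hL, hl⟩ := exists_conf_one n n le_rfl
    refine ⟨1, L, hL, ?_⟩
    rw [hl, ← Multiset.replicate_succ]
    congr 1; omega
  | succ k ih =>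
    intro hn
    obtain ⟨σ, L, hL, hl⟩ := ih (by omega)
    obtain ⟨c, hc, hck, hrest⟩ := (Multiset.map_eq_cons _ _ _ _).2 hl
    have hL1 : L = c ::ₘ L.erase c := (Multiset.cons_erase hc).symm
    rw [show n - 1 - k = (n - 1 - (k + 1)) + 1 by omega, Multiset.replicate_succ] at hrest
    obtain ⟨c', hc', hck', hrest'⟩ := (Multiset.map_eq_cons _ _ _ _).2 hrest
    have hL2 : L.erase c = c' ::ₘ (L.erase c).erase c' := (Multiset.cons_erase hc').symm
    rw [hL1, hL2] at hL
    obtain ⟨v, l⟩ := c
    obtain ⟨s, l'⟩ := c'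
    have h3 := conf_merge inv0_inv0 hL
    rw [← pp_swap] at h3
    refine ⟨_, _, h3, ?_⟩
    simp only [lens, Multiset.map_cons, List.length_append, List.length_cons] at hck hck' ⊢
    rw [hrest', hck', hck, zero_add]

theorem coeff_eq {n : ℕ} (k : ℕ) (σ : Perm (Fin (2 * n))) :
    (k < (redType σ).sum → (h n k * P n).coeff σ = 0) ∧
    (k = (redType σ).sum → (h n k * P n).coeff σ = (W (redType σ)).fst) ∧
    (k = (redType σ).sum + 1 → (h n k * P n).coeff σ = (W (redType σ)).snd) := by
  obtain ⟨L, hL⟩ := exists_conf σ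
  rw [redType_eq hL, sum_filter_ne, W_filter_ne, h_eq_hLoc]
  exact main_induction n k n le_rfl σ L hL (fun x hx => absurd (by rw [S_full]; exact mem_univ x) hx)

end Pool.Agent.Q120.WG
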