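import Mathlib

/-!
The weights: Catalan numbers and the total areas of Catalan paths, as dual numbers.
-/

namespace Pool.Agent.Q120.WG

open Finset

/-- `4^k - binom(2k+1,k)`, the total area of the Catalan paths of length `k` -/
noncomputable def area (k : ℕ) : ℂ := 4 ^ k - ((2 * k + 1).choose k : ℂ)

/-- the weight of a component -/
noncomputable def T (k : ℕ) : DualNumber ℂ :=
  TrivSqZeroExt.inl (catalan k : ℂ) + TrivSqZeroExt.inr (area k)

lemma T_fst (k : ℕ) : (T k).fst = (catalan k : ℂ) := by simp [T]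

lemma T_snd (k : ℕ) : (T k).snd = area k := by simp [T]

lemma choose_eq (k : ℕ) : (2 * k + 1).choose k = (2 * k + 1) * catalan k := by
  have h1 := Nat.add_one_mul_choose_eq (2 * k) k
  have h2 : (2 * k + 1).choose (k + 1) = (2 * k + 1).choose k := by
    apply Nat.choose_symm_of_eq_add
    omega
  rw [h2] at h1
  have h3 := succ_mul_catalan_eq_centralBinom k
  have h4 : Nat.centralBinom k = (2 * k).choose k := rfl
  rw [← h4, ← h3] at h1
  have h5 : ((2 * k + 1).choose k) * (k + 1) = ((2 * k + 1) * catalan k) * (k + 1) := by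
    rw [← h1]; ring
  exact Nat.eq_of_mul_eq_mul_right (Nat.succ_pos k) h5

lemma area_eq (k : ℕ) : area k = 4 ^ k - (2 * k + 1) * (catalan k : ℂ) := by
  unfold area
  rw [choose_eq]
  push_cast
  ring

lemma catalan_ratio (n : ℕ) : (n + 2) * catalan (n + 1) = 2 * (2 * n + 1) * catalan n := by
  have h1 := Nat.succ_mul_centralBinom_succ n
  rw [← succ_mul_catalan_eq_centralBinom (n + 1), ← succ_mul_catalan_eq_centralBinom n] at h1
  have h2 : (n + 1) * ((n + 2) * catalan (n + 1)) = (n + 1) * (2 * (2 * n + 1) * catalan n) := by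
    rw [show n + 2 = n + 1 + 1 from rfl, h1]
    ring
  exact Nat.eq_of_mul_eq_mul_left (Nat.succ_pos n) h2

lemma catalan_ratioC (n : ℕ) :
    ((n : ℂ) + 2) * (catalan (n + 1) : ℂ) = 2 * (2 * n + 1) * (catalan n : ℂ) := by
  exact_mod_cast catalan_ratio n

lemma catalan_succ_range (k : ℕ) :
    (catalan (k + 1) : ℂ) = ∑ i ∈ range (k + 1), (catalan i : ℂ) * (catalan (k - i) : ℂ) := by
  rw [catalan_succ, Nat.cast_sum, ← Fin.sum_univ_eq_sum_range
    (fun i => (catalan i : ℂ) * (catalan (k - i) : ℂ)) (k + 1)]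
  apply Finset.sum_congr rfl
  intro i _
  push_cast
  rfl

lemma sum_four (k : ℕ) :
    2 * ∑ i ∈ range (k + 1), (catalan i : ℂ) * 4 ^ (k - i) =
      4 ^ (k + 1) - (k + 2) * (catalan (k + 1) : ℂ) := by
  induction k with
  | zero => norm_num [catalan_zero, catalan_one]
  | succ k ih =>
    rw [Finset.sum_range_succ]
    have h1 : ∑ i ∈ range (k + 1), (catalan i : ℂ) * 4 ^ (k + 1 - i) =
        4 * ∑ i ∈ range (k + 1), (catalan i : ℂ) * 4 ^ (k - i) := by
      rw [Finset.mul_sum]
      apply Finset.sum_congr rfl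
      intro i hi
      rw [mem_range] at hi
      rw [show k + 1 - i = (k - i) + 1 by omega, pow_succ]
      ring
    rw [h1]
    have h2 := catalan_ratioC (k + 1)
    push_cast at h2 ⊢
    simp only [Nat.sub_self, pow_zero, mul_one]
    linear_combination 4 * ih + h2

lemma sum_refl {f : ℕ → ℕ → ℂ} (k : ℕ) :
    ∑ i ∈ range (k + 1), f i (k - i) = ∑ i ∈ range (k + 1), f (k - i) i := by
  rw [← Finset.sum_range_reflect]
  apply Finset.sum_congr rfl
  intro i hi
  rw [mem_range] at hi
  rw [show k + 1 - 1 - i = k - i by omega, show k - (k - i) = i by omega]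

lemma T_succ (k : ℕ) :
    ∑ i ∈ range (k + 1), T i * T (k - i) +
      TrivSqZeroExt.inr (((k : ℂ) + 1) * (catalan (k + 1) : ℂ)) = T (k + 1) := by
  apply TrivSqZeroExt.ext
  · rw [TrivSqZeroExt.fst_add, TrivSqZeroExt.fst_sum, TrivSqZeroExt.fst_inr, add_zero, T_fst,
      catalan_succ_range]
    apply Finset.sum_congr rfl
    intro i _
    rw [TrivSqZeroExt.fst_mul, T_fst, T_fst]
  · rw [TrivSqZeroExt.snd_add, TrivSqZeroExt.snd_sum, TrivSqZeroExt.snd_inr, T_snd]
    have h1 : ∑ i ∈ range (k + 1), (T i * T (k - i)).snd =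
        ∑ i ∈ range (k + 1), (((catalan i : ℂ) * 4 ^ (k - i) + (catalan (k - i) : ℂ) * 4 ^ i) -
          (2 * k + 2) * ((catalan i : ℂ) * (catalan (k - i) : ℂ))) := by
      apply Finset.sum_congr rfl
      intro i hi
      rw [mem_range] at hi
      rw [DualNumber.snd_mul, T_fst, T_fst, T_snd, T_snd, area_eq, area_eq]
      have h2 : ((k - i : ℕ) : ℂ) = (k : ℂ) - i := by
        rw [Nat.cast_sub (by omega)]
      rw [h2]
      ring
    rw [h1, Finset.sum_sub_distrib, Finset.sum_add_distrib, ← Finset.mul_sum,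
      ← catalan_succ_range,
      ← sum_refl (f := fun a b => (catalan a : ℂ) * 4 ^ b), area_eq]
    have h3 := sum_four k
    push_cast
    linear_combination h3

/-- the weight of a multiset of lengths -/
noncomputable def W (M : Multiset ℕ) : DualNumber ℂ := (M.map T).prod

lemma W_cons (a : ℕ) (M : Multiset ℕ) : W (a ::ₘ M) = T a * W M := by simp [W]

lemma area_zero : area 0 = 0 := by simp [area]

lemma T_zero : T 0 = 1 := by
  apply TrivSqZeroExt.ext
  · rw [T_fst]; simp
  · rw [T_snd, area_zero]; simp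

lemma W_eq_one {M : Multiset ℕ} (h : M.sum = 0) : W M = 1 := by
  have h0 : ∀ x ∈ M, x = 0 := Multiset.sum_eq_zero_iff.1 h
  unfold W
  apply Multiset.prod_eq_one
  intro x hx
  obtain ⟨y, hy, rfl⟩ := Multiset.mem_map.1 hx
  rw [h0 y hy, T_zero]

lemma W_fst (M : Multiset ℕ) : (W M).fst = (M.map (fun k => (catalan k : ℂ))).prod := by
  induction M using Multiset.induction with
  | empty => simp [W]
  | cons a M ih => rw [W_cons, TrivSqZeroExt.fst_mul, ih, T_fst, Multiset.map_cons,
      Multiset.prod_cons]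

lemma W_snd (M : Multiset ℕ) : (W M).snd =
    (M.map (fun k => area k * ((M.erase k).map (fun j => (catalan j : ℂ))).prod)).sum := by
  induction M using Multiset.induction with
  | empty => simp [W]
  | cons a M ih =>
    rw [W_cons, DualNumber.snd_mul, ih, T_fst, T_snd, W_fst, Multiset.map_cons, Multiset.sum_cons,
      Multiset.erase_cons_head, add_comm]
    congr 1
    rw [← Multiset.sum_map_mul_left]
    congr 1
    apply Multiset.map_congr rfl
    intro k hk
    by_cases hka : k = a
    · subst hka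
      rw [Multiset.erase_cons_head]
      obtain ⟨M', rfl⟩ := Multiset.exists_cons_of_mem hk
      rw [Multiset.erase_cons_head, Multiset.map_cons, Multiset.prod_cons]
      ring
    · rw [Multiset.erase_cons_tail_of_mem hk, Multiset.map_cons, Multiset.prod_cons]
      ring

end Pool.Agent.Q120.WG
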