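import Pool.Agent.Q120.WG.Basic
import Pool.Agent.Q120.WG.Conf
import Pool.Agent.Q120.WG.Weight

/-!
The first two coefficients, by induction.
-/

namespace Pool.Agent.Q120.WG

open Equiv Finset

/-- the matching `{σ(2i-1), σ(2i)}` as an involution -/
def pp {n : ℕ} (σ : Perm (Fin (2 * n))) (x : Fin (2 * n)) : Fin (2 * n) := σ (inv0 n (σ⁻¹ x))

lemma inv0_inv0 {n : ℕ} (x : Fin (2 * n)) : inv0 n (inv0 n x) = x := invFun0_invFun0 n x

lemma pp_pp {n : ℕ} (σ : Perm (Fin (2 * n))) (x : Fin (2 * n)) : pp σ (pp σ x) = x := by
  simp [pp, inv0_inv0]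

lemma pp_swap {n : ℕ} (σ : Perm (Fin (2 * n))) (v s : Fin (2 * n)) :
    pp (swap v s * σ) = tp (swap v s) (pp σ) := by
  funext x
  simp [pp, tp, mul_inv_rev, swap_inv]

/-- the first `2j` points -/
def S (n j : ℕ) : Finset (Fin (2 * n)) := univ.filter (fun x => x.val < 2 * j)

lemma mem_S {n j : ℕ} {x : Fin (2 * n)} : x ∈ S n j ↔ x.val < 2 * j := by simp [S]

lemma inv0_mem_S {n j : ℕ} {x : Fin (2 * n)} : inv0 n x ∈ S n j ↔ x ∈ S n j := by
  rw [mem_S, mem_S]
  show (invFun0 n x).val < 2 * j ↔ _
  simp only [invFun0]
  split_ifs <;> omega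

lemma inv0_pA {n : ℕ} (i : Fin n) : inv0 n (pA i) = pB i := by
  show invFun0 n (pA i) = pB i
  simp [invFun0, pA, pB]

lemma inv0_pB {n : ℕ} (i : Fin n) : inv0 n (pB i) = pA i := by
  rw [← inv0_pA, inv0_inv0]

lemma S_succ {n j : ℕ} (hj : j < n) :
    (S n (j + 1)).val = {pA ⟨j, hj⟩} + {inv0 n (pA ⟨j, hj⟩)} + (S n j).val := by
  have h1 : S n (j + 1) = insert (pA ⟨j, hj⟩) (insert (pB ⟨j, hj⟩) (S n j)) := by
    ext x
    simp only [mem_insert, mem_S, pA, pB, Fin.ext_iff]
    omega
  have hb : pB ⟨j, hj⟩ ∉ S n j := by
    rw [mem_S]; simp [pB]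
  have ha : pA ⟨j, hj⟩ ∉ insert (pB ⟨j, hj⟩) (S n j) := by
    rw [mem_insert, mem_S]; simp [pB, pA]
  rw [h1, Finset.insert_val_of_notMem ha, Finset.insert_val_of_notMem hb, inv0_pA]
  rw [← Multiset.singleton_add, ← Multiset.singleton_add, add_assoc]

lemma pp_eq_iff {n : ℕ} (σ : Perm (Fin (2 * n))) :
    σ * inv0 n = inv0 n * σ ↔ ∀ x, pp σ x = inv0 n x := by
  constructor
  · intro h x
    have h1 := congrArg (fun τ : Perm (Fin (2 * n)) => τ (σ⁻¹ x)) h
    simpa [pp] using h1
  · intro h
    ext x
    have h1 := h (σ x)
    simp only [pp] at h1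
    rw [show σ⁻¹ (σ x) = x from σ.symm_apply_apply x] at h1
    simp [h1]

lemma F_of_out {n : ℕ} (k : ℕ) : ∀ (j : ℕ), j ≤ n → ∀ (σ : Perm (Fin (2 * n))), F n k j σ ≠ 0 →
    ∀ x, x ∉ S n j → pp σ x = inv0 n x := by
  induction k with
  | zero =>
    intro j _ σ hF x _
    rw [F_zero] at hF
    have : σ * inv0 n = inv0 n * σ := by
      by_contra hne
      rw [if_neg hne] at hF
      exact hF rfl
    exact (pp_eq_iff σ).1 this x
  | succ k ih =>
    intro j
    induction j with
    | zero =>
      intro _ σ hF
      rw [F_succ_zero] at hF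
      exact absurd rfl hF
    | succ j ihj =>
      intro hj σ hF x hx
      rw [F_succ_succ k j (by omega)] at hF
      by_cases h1 : F n (k + 1) j σ = 0
      · rw [h1, zero_add] at hF
        obtain ⟨s, hs, hsF⟩ := Finset.exists_ne_zero_of_sum_ne_zero hF
        have h2 := ih (j + 1) hj _ hsF x hx
        rw [pp_swap] at h2
        have hs' : s.val < 2 * j := (mem_filter.1 hs).2
        have hxS : 2 * (j + 1) ≤ x.val := by
          rw [mem_S] at hx; omega
        have hfix : ∀ y : Fin (2 * n), y ∉ S n (j + 1) → swap (pA ⟨j, by omega⟩) s y = y := by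
          intro y hy
          rw [mem_S] at hy
          apply swap_apply_of_ne_of_ne
          · rintro rfl; apply hy; simp [pA]
          · rintro rfl; apply hy; omega
        have h3 : swap (pA ⟨j, by omega⟩) s x = x := hfix x hx
        have h4 : swap (pA ⟨j, by omega⟩) s (inv0 n x) = inv0 n x :=
          hfix _ (fun hh => hx (inv0_mem_S.1 hh))
        simp only [tp, h3] at h2
        have h5 := congrArg (swap (pA (⟨j, by omega⟩ : Fin n)) s) h2
        rw [swap_apply_self, h4] at h5
        exact h5
      · exact ihj (by omega) σ h1 x (fun hh => hx (by rw [mem_S] at hh ⊢; omega))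

lemma map_lens_sum (l : ℕ) (M : Multiset ℕ) : (l ::ₘ M).sum = l + M.sum := Multiset.sum_cons l M

lemma out_swap {n j : ℕ} {σ : Perm (Fin (2 * n))} (h : ∀ x, x ∉ S n j → pp σ x = inv0 n x)
    {v s : Fin (2 * n)} (hv : v ∈ S n j) (hs : s ∈ S n j) :
    ∀ x, x ∉ S n j → pp (swap v s * σ) x = inv0 n x := by
  intro x hx
  have hfix : ∀ y : Fin (2 * n), y ∉ S n j → swap v s y = y := by
    intro y hy
    apply swap_apply_of_ne_of_ne
    · rintro rfl; exact hy hv
    · rintro rfl; exact hy hs
  rw [pp_swap]
  simp only [tp]
  rw [hfix x hx, h x hx, hfix _ (fun hh => hx (inv0_mem_S.1 hh))]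

theorem main_induction (n : ℕ) : ∀ (k j : ℕ), j ≤ n → ∀ (σ : Perm (Fin (2 * n)))
    (L : Multiset (Fin (2 * n) × List (Fin (2 * n)))),
    Conf (inv0 n) (pp σ) (S n j) L → (∀ x, x ∉ S n j → pp σ x = inv0 n x) →
    (k < (lens L).sum → F n k j σ = 0) ∧
    (k = (lens L).sum → F n k j σ = (W (lens L)).fst) ∧
    (k = (lens L).sum + 1 → F n k j σ = (W (lens L)).snd) := by
  intro k
  induction k with
  | zero =>
    intro j hj σ L hL hout
    refine ⟨?_, ?_, fun h => absurd h (by omega)⟩
    · intro hpos
      rw [F_zero, if_neg]
      intro hcomm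
      rw [pp_eq_iff] at hcomm
      have h1 : ∃ c ∈ L, c.2.length ≠ 0 := by
        by_contra hcon
        push Not at hcon
        have : (lens L).sum = 0 := by
          rw [Multiset.sum_eq_zero_iff]
          intro x hx
          obtain ⟨c, hc, rfl⟩ := Multiset.mem_map.1 hx
          exact hcon c hc
        omega
      obtain ⟨⟨a, l⟩, hc, hlen⟩ := h1
      cases l with
      | nil => simp at hlen
      | cons x l =>
        obtain ⟨L', rfl⟩ := Multiset.exists_cons_of_mem hc
        have h2 := hL.cyc _ hc
        simp only at h2
        rw [seg_cons, hcomm a] at h2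
        have h3 : a = x := (inv0 n).injective h2.1
        have h4 := (Multiset.nodup_add.1 (nd1 hL)).1
        subst h3
        simp only [cell] at h4
        have h5 : ¬ Multiset.Nodup (({a} : Multiset (Fin (2 * n))) + {a}) := by
          simp
        apply h5
        refine Multiset.nodup_of_le ?_ h4
        rw [coe_cns, show ({a} : Multiset (Fin (2 * n))) + {inv0 n a} + ({a} + (l : Multiset _)) +
          ((List.map (inv0 n) (a :: l) : List _) : Multiset _) = ({a} + {a}) + ({inv0 n a} +
          (l : Multiset _) + ((List.map (inv0 n) (a :: l) : List _) : Multiset _)) by abel]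
        exact Multiset.le_add_right _ _
    · intro h0
      have hW := W_eq_one h0.symm
      rw [hW, F_zero, if_pos]
      · simp
      rw [pp_eq_iff]
      intro x
      by_cases hx : x ∈ S n j
      · have hx' : x ∈ (L.map (cell (inv0 n))).sum := by
          rw [hL.cov]; exact hx
        obtain ⟨⟨a, l⟩, hc, hxc⟩ := Multiset.mem_bind.1 (show x ∈ L.bind (cell (inv0 n)) from hx')
        have hl : l.length = 0 :=
          Multiset.sum_eq_zero_iff.1 h0.symm _ (Multiset.mem_map.2 ⟨(a, l), hc, rfl⟩)
        rw [List.length_eq_zero_iff] at hl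
        subst hl
        have h2 := hL.cyc _ hc
        simp only at h2
        rw [seg_nil] at h2
        simp only [cell, List.map_nil, Multiset.coe_nil, add_zero, Multiset.mem_add,
          Multiset.mem_singleton] at hxc
        rcases hxc with rfl | rfl
        · exact h2
        · rw [← h2, pp_pp, h2, inv0_inv0]
      · exact hout x hx
  | succ k ih =>
    intro j
    induction j with
    | zero =>
      intro hj σ L hL hout
      have hL0 : L = 0 := by
        rw [Multiset.eq_zero_iff_forall_notMem]
        intro c hc
        have h1 : c.1 ∈ (L.map (cell (inv0 n))).sum := mem_sum_cell hc (by simp [cell])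
        rw [hL.cov] at h1
        have h2 : c.1 ∈ S n 0 := h1
        rw [mem_S] at h2
        omega
      subst hL0
      refine ⟨fun h => absurd h (by simp [lens]), fun h => absurd h (by simp [lens]), ?_⟩
      intro _
      rw [F_succ_zero]
      simp [lens, W]
    | succ j ihj =>
      intro hj σ L hL hout
      have hjn : j < n := by omega
      set v : Fin (2 * n) := pA ⟨j, hjn⟩ with hv
      have hvS : v ∈ S n (j + 1) := by rw [mem_S]; simp [hv, pA]
      have hvsum : v ∈ (L.map (cell (inv0 n))).sum := by rw [hL.cov]; exact hvS
      obtain ⟨l, L', hL', hlens⟩ := conf_norm (K := 0) inv0_inv0 (pp_pp σ)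
        (by rwa [zero_add]) v hvsum
      rw [zero_add] at hL'
      rw [hlens, map_lens_sum, F_succ_succ k j hjn σ]
      have hSval : (S n j).val = (l : Multiset (Fin (2 * n))) +
          ((l.map (inv0 n) : List (Fin (2 * n))) : Multiset (Fin (2 * n))) +
          (L'.map (cell (inv0 n))).sum := by
        have h1 := hL'.cov
        rw [S_succ hjn, Multiset.map_cons, Multiset.sum_cons] at h1
        simp only [cell] at h1
        have h2 : ({v} + {inv0 n v} : Multiset (Fin (2 * n))) + ((l : Multiset (Fin (2 * n))) +
          ((l.map (inv0 n) : List (Fin (2 * n))) : Multiset (Fin (2 * n))) +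
          (L'.map (cell (inv0 n))).sum) = ({v} + {inv0 n v}) + (S n j).val := by
          rw [← h1]; abel
        exact (add_left_cancel h2).symm
      have hSsub : ∀ s ∈ S n j, s ∈ S n (j + 1) := by
        intro s hs; rw [mem_S] at hs ⊢; omega
      -- merging terms vanish
      have hmerge : k < l.length + (lens L').sum + 1 → ∀ s ∈ (L'.map (cell (inv0 n))).sum,
          F n k (j + 1) (swap v s * σ) = 0 := by
        intro hk s hs
        have hsS : s ∈ S n j := by
          show s ∈ (S n j).val
          rw [hSval, Multiset.mem_add]
          exact Or.inr hs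
        have hL2 : Conf (inv0 n) (pp σ) (S n (j + 1)) ({(v, l)} + L') := by
          rw [Multiset.singleton_add]; exact hL'
        obtain ⟨l'', L'', hc, hl⟩ := conf_norm inv0_inv0 (pp_pp σ) hL2 s hs
        rw [Multiset.singleton_add] at hc
        have h3 := conf_merge inv0_inv0 hc
        rw [← pp_swap] at h3
        have h4 := (ih (j + 1) hj (swap v s * σ) _ h3
          (out_swap hout hvS (hSsub s hsS))).1
        apply h4
        rw [hl] at hk
        simp only [lens, Multiset.map_cons, Multiset.sum_cons, List.length_append,
          List.length_cons] at hk ⊢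
        omega
      -- the sum
      have hsum : k < l.length + (lens L').sum + 1 →
          ∑ s ∈ univ.filter (fun s : Fin (2 * n) => s.val < 2 * j), F n k (j + 1) (swap v s * σ) =
          ∑ i : Fin l.length, F n k (j + 1) (swap v (l[i.1]) * σ) +
          ∑ i : Fin l.length, F n k (j + 1) (swap v (inv0 n (l[i.1])) * σ) := by
        intro hk
        have h1 : ∑ s ∈ univ.filter (fun s : Fin (2 * n) => s.val < 2 * j),
            F n k (j + 1) (swap v s * σ) =
            ((S n j).val.map (fun s => F n k (j + 1) (swap v s * σ))).sum := rfl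
        rw [h1, hSval, Multiset.map_add, Multiset.map_add, Multiset.sum_add, Multiset.sum_add]
        have h2 : (((L'.map (cell (inv0 n))).sum).map
            (fun s => F n k (j + 1) (swap v s * σ))).sum = 0 := by
          apply Multiset.sum_eq_zero
          intro x hx
          obtain ⟨s, hs, rfl⟩ := Multiset.mem_map.1 hx
          exact hmerge hk s hs
        rw [h2, add_zero, Multiset.map_coe, Multiset.sum_coe, Multiset.map_coe, Multiset.sum_coe,
          List.map_map, ← Fin.sum_univ_fun_getElem, ← Fin.sum_univ_fun_getElem]
        rfl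
      -- the two kinds of terms
      have hdec : ∀ i : Fin l.length, l = l.take i.1 ++ l[i.1] :: l.drop (i.1 + 1) := by
        intro i
        rw [← List.drop_eq_getElem_cons i.isLt, List.take_append_drop]
      have hlS : ∀ x ∈ l, x ∈ S n j := by
        intro x hx
        show x ∈ (S n j).val
        rw [hSval, Multiset.mem_add, Multiset.mem_add]
        exact Or.inl (Or.inl (by simpa using hx))
      have hsplit : ∀ i : Fin l.length, ∃ M : Multiset (Fin (2 * n) × List (Fin (2 * n))),
          Conf (inv0 n) (pp (swap v (l[i.1]) * σ)) (S n (j + 1)) M ∧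
          lens M = i.1 ::ₘ (l.length - 1 - i.1) ::ₘ lens L' := by
        intro i
        have h1 : Conf (inv0 n) (pp σ) (S n (j + 1))
            ((v, l.take i.1 ++ l[i.1] :: l.drop (i.1 + 1)) ::ₘ L') := by
          rw [← hdec i]; exact hL'
        have h2 := conf_split inv0_inv0 h1
        rw [← pp_swap] at h2
        refine ⟨_, h2, ?_⟩
        simp only [lens, Multiset.map_cons, List.length_take, List.length_drop]
        rw [Nat.min_eq_left i.isLt.le, show l.length - (i.1 + 1) = l.length - 1 - i.1 by omega]
      have hrev : ∀ i : Fin l.length, ∃ M : Multiset (Fin (2 * n) × List (Fin (2 * n))),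
          Conf (inv0 n) (pp (swap v (inv0 n (l[i.1])) * σ)) (S n (j + 1)) M ∧
          lens M = l.length ::ₘ lens L' := by
        intro i
        have h1 : Conf (inv0 n) (pp σ) (S n (j + 1))
            ((v, l.take i.1 ++ inv0 n (inv0 n (l[i.1])) :: l.drop (i.1 + 1)) ::ₘ L') := by
          rw [inv0_inv0, ← hdec i]; exact hL'
        have h2 := conf_rev inv0_inv0 (pp_pp σ) h1
        rw [← pp_swap] at h2
        refine ⟨_, h2, ?_⟩
        simp only [lens, Multiset.map_cons, List.length_take, List.length_drop, List.length_append,
          List.length_cons, List.length_map, List.length_reverse]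
        rw [Nat.min_eq_left i.isLt.le]
        congr 1
        have := i.isLt
        omega
      have hgS : ∀ i : Fin l.length, l[i.1] ∈ S n (j + 1) :=
        fun i => hSsub _ (hlS _ (List.getElem_mem _))
      have hiS : ∀ i : Fin l.length, inv0 n (l[i.1]) ∈ S n (j + 1) :=
        fun i => inv0_mem_S.2 (hgS i)
      by_cases hl0 : l = []
      · -- a trivial component
        subst hl0
        simp only [List.length_nil, zero_add] at hsum hmerge ⊢
        have h0 := hL'.cyc (v, []) (by simp)
        simp only at h0
        rw [seg_nil] at h0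
        have hLj : Conf (inv0 n) (pp σ) (S n j) L' := by
          refine ⟨fun c hc => hL'.cyc c (Multiset.mem_cons_of_mem hc), ?_⟩
          rw [hSval]; simp
        have houtj : ∀ x, x ∉ S n j → pp σ x = inv0 n x := by
          intro x hx
          by_cases hx2 : x ∈ S n (j + 1)
          · have hx3 : x ∈ (S n (j + 1)).val := hx2
            rw [S_succ hjn, Multiset.mem_add, Multiset.mem_add, Multiset.mem_singleton,
              Multiset.mem_singleton] at hx3
            rcases hx3 with (rfl | rfl) | hx3
            · exact h0
            · show pp σ (inv0 n v) = inv0 n (inv0 n v)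
              rw [← h0, pp_pp, h0, inv0_inv0]
            · exact absurd hx3 hx
          · exact hout x hx2
        have key := ihj (by omega) σ L' hLj houtj
        rw [W_cons, T_zero, one_mul]
        refine ⟨?_, ?_, ?_⟩
        · intro hk
          rw [hsum (by omega), key.1 hk]
          simp
        · intro hk
          rw [hsum (by omega), key.2.1 hk]
          simp
        · intro hk
          rw [hsum (by omega), key.2.2 hk]
          simp
      · -- a nontrivial component
        obtain ⟨m, hm⟩ : ∃ m, l.length = m + 1 :=
          ⟨l.length - 1, by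
            have := List.length_pos_iff.2 hl0
            omega⟩
        have hFj : F n (k + 1) j σ = 0 := by
          by_contra hne
          have h1 := F_of_out (k + 1) j (by omega) σ hne v (by rw [mem_S]; simp [hv, pA])
          obtain ⟨x, l2, rfl⟩ := List.exists_cons_of_ne_nil hl0
          have h2 := hL'.cyc (v, x :: l2) (by simp)
          simp only at h2
          rw [seg_cons, h1] at h2
          have h3 : v = x := (inv0 n).injective h2.1
          have h4 := hlS x (by simp)
          rw [← h3, mem_S] at h4
          simp [hv, pA] at h4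
        rw [hFj, zero_add, W_cons]
        refine ⟨?_, ?_, ?_⟩
        · intro hk
          rw [hsum (by omega)]
          have h1 : ∀ i : Fin l.length, F n k (j + 1) (swap v (l[i.1]) * σ) = 0 := by
            intro i
            obtain ⟨M, hM, hMl⟩ := hsplit i
            apply (ih (j + 1) hj _ M hM (out_swap hout hvS (hgS i))).1
            rw [hMl]
            simp only [Multiset.sum_cons]
            have := i.isLt
            omega
          have h2 : ∀ i : Fin l.length, F n k (j + 1) (swap v (inv0 n (l[i.1])) * σ) = 0 := by
            intro i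
            obtain ⟨M, hM, hMl⟩ := hrev i
            apply (ih (j + 1) hj _ M hM (out_swap hout hvS (hiS i))).1
            rw [hMl]
            simp only [Multiset.sum_cons]
            omega
          rw [Finset.sum_eq_zero (fun i _ => h1 i), Finset.sum_eq_zero (fun i _ => h2 i), add_zero]
        · intro hk
          rw [hsum (by omega)]
          have h1 : ∀ i : Fin l.length, F n k (j + 1) (swap v (l[i.1]) * σ) =
              ((T i.1 * T (m - i.1)) * W (lens L')).fst := by
            intro i
            obtain ⟨M, hM, hMl⟩ := hsplit i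
            have h3 := (ih (j + 1) hj _ M hM (out_swap hout hvS (hgS i))).2.1 ?_
            · rw [h3, hMl, W_cons, W_cons, show l.length - 1 - i.1 = m - i.1 by omega, mul_assoc]
            · rw [hMl]
              simp only [Multiset.sum_cons]
              have := i.isLt
              omega
          have h2 : ∀ i : Fin l.length, F n k (j + 1) (swap v (inv0 n (l[i.1])) * σ) = 0 := by
            intro i
            obtain ⟨M, hM, hMl⟩ := hrev i
            apply (ih (j + 1) hj _ M hM (out_swap hout hvS (hiS i))).1
            rw [hMl]
            simp only [Multiset.sum_cons]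
            omega
          rw [Finset.sum_congr rfl (fun i _ => h1 i), Finset.sum_eq_zero (fun i _ => h2 i), add_zero,
            ← TrivSqZeroExt.fst_sum, ← Finset.sum_mul,
            Fin.sum_univ_eq_sum_range (fun i => T i * T (m - i)) l.length, hm, ← T_succ m,
            TrivSqZeroExt.fst_mul, TrivSqZeroExt.fst_mul, TrivSqZeroExt.fst_add,
            TrivSqZeroExt.fst_inr, add_zero]
        · intro hk
          rw [hsum (by omega)]
          have h1 : ∀ i : Fin l.length, F n k (j + 1) (swap v (l[i.1]) * σ) =
              ((T i.1 * T (m - i.1)) * W (lens L')).snd := by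
            intro i
            obtain ⟨M, hM, hMl⟩ := hsplit i
            have h3 := (ih (j + 1) hj _ M hM (out_swap hout hvS (hgS i))).2.2 ?_
            · rw [h3, hMl, W_cons, W_cons, show l.length - 1 - i.1 = m - i.1 by omega, mul_assoc]
            · rw [hMl]
              simp only [Multiset.sum_cons]
              have := i.isLt
              omega
          have h2 : ∀ i : Fin l.length, F n k (j + 1) (swap v (inv0 n (l[i.1])) * σ) =
              (T (m + 1) * W (lens L')).fst := by
            intro i
            obtain ⟨M, hM, hMl⟩ := hrev i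
            have h3 := (ih (j + 1) hj _ M hM (out_swap hout hvS (hiS i))).2.1 ?_
            · rw [h3, hMl, W_cons, hm]
            · rw [hMl]
              simp only [Multiset.sum_cons]
              omega
          rw [Finset.sum_congr rfl (fun i _ => h1 i), Finset.sum_congr rfl (fun i _ => h2 i),
            ← TrivSqZeroExt.snd_sum, ← Finset.sum_mul,
            Fin.sum_univ_eq_sum_range (fun i => T i * T (m - i)) l.length, hm,
            Finset.sum_const, Finset.card_univ, Fintype.card_fin, nsmul_eq_mul]
          have hT := T_succ m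
          have hT2 : ∑ i ∈ range (m + 1), T i * T (m - i) =
              T (m + 1) - TrivSqZeroExt.inr (((m : ℂ) + 1) * (catalan (m + 1) : ℂ)) := by
            rw [← hT]; ring
          rw [hT2, DualNumber.snd_mul, DualNumber.snd_mul, TrivSqZeroExt.fst_mul,
            TrivSqZeroExt.snd_sub, TrivSqZeroExt.fst_sub, TrivSqZeroExt.fst_inr,
            TrivSqZeroExt.snd_inr, T_fst]
          push_cast
          ring

end Pool.Agent.Q120.WG
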